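import Pool.Agent.L0h45.AV.Stm

/-!
# Project AV, module ITG: the integral of the Jacobian
-/

set_option autoImplicit false

namespace Pool.Agent.L0h10.AV

open MeasureTheory Filter Topology
open Pool.Agent.L0h45.AV

lemma fub_succ {n : ℕ} (g : (Fin (n + 1) → ℝ) → ENNReal) (hg : Measurable g) :
    ∫⁻ q, g q = ∫⁻ x : ℝ, ∫⁻ r : Fin n → ℝ, g (Fin.cons x r) := by
  have h := (volume_preserving_piFinSuccAbove (fun _ : Fin (n + 1) => ℝ) 0).symm
  rw [← h.lintegral_comp hg, Measure.volume_eq_prod, lintegral_prod]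
  · refine lintegral_congr fun x => lintegral_congr fun r => ?_
    congr 1
    exact Fin.insertNth_zero' x r
  · exact (hg.comp (MeasurableEquiv.measurable _)).aemeasurable

lemma fub_zero (g : (Fin 0 → ℝ) → ENNReal) : ∫⁻ q, g q = g Fin.elim0 := by
  rw [show (volume : Measure (Fin 0 → ℝ)) = Measure.dirac Fin.elim0 from by
    rw [volume_pi]; exact Measure.pi_of_empty _ _]
  rw [lintegral_dirac]

lemma fub4 (f : ℝ → ℝ → ℝ → ℝ → ENNReal)
    (hf : Measurable fun q : Fin 4 → ℝ => f (q 0) (q 1) (q 2) (q 3)) :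
    ∫⁻ q : Fin 4 → ℝ, f (q 0) (q 1) (q 2) (q 3) = ∫⁻ p, ∫⁻ v, ∫⁻ φ, ∫⁻ θ, f p v φ θ := by
  rw [fub_succ _ hf]
  refine lintegral_congr fun p => ?_
  rw [fub_succ]
  · refine lintegral_congr fun v => ?_
    rw [fub_succ]
    · refine lintegral_congr fun φ => ?_
      rw [fub_succ]
      · refine lintegral_congr fun θ => ?_
        rw [fub_zero]
        rfl
      · refine hf.comp (?_ : Measurable fun r : Fin 1 → ℝ =>
          (Fin.cons p (Fin.cons v (Fin.cons φ r : Fin 2 → ℝ) : Fin 3 → ℝ) : Fin 4 → ℝ))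
        refine measurable_pi_iff.2 fun i => ?_
        fin_cases i
        · exact measurable_const
        · exact measurable_const
        · exact measurable_const
        · exact measurable_pi_apply 0
    · refine hf.comp (?_ : Measurable fun r : Fin 2 → ℝ =>
          (Fin.cons p (Fin.cons v r : Fin 3 → ℝ) : Fin 4 → ℝ))
      refine measurable_pi_iff.2 fun i => ?_
      fin_cases i
      · exact measurable_const
      · exact measurable_const
      · exact measurable_pi_apply 0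
      · exact measurable_pi_apply 1
  · refine hf.comp (?_ : Measurable fun r : Fin 3 → ℝ => (Fin.cons p r : Fin 4 → ℝ))
    refine measurable_pi_iff.2 fun i => ?_
    fin_cases i
    · exact measurable_const
    · exact measurable_pi_apply 0
    · exact measurable_pi_apply 1
    · exact measurable_pi_apply 2

/-- the innermost integral -/
lemma int_theta (v s : ℝ) (hv : 0 < v) (A : Set ℝ) (hA : ∀ θ ∈ A, |θ| ≤ 1 ∧ 0 < θ * s) :
    ∫⁻ θ in A, ENNReal.ofReal (3 * θ ^ 2 / v ^ 2) ≤ ENNReal.ofReal (1 / v ^ 2) := by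
  have h1 : ∀ a b : ℝ, a ≤ b → ∫⁻ θ in Set.Ioc a b, ENNReal.ofReal (3 * θ ^ 2 / v ^ 2) =
      ENNReal.ofReal ((b ^ 3 - a ^ 3) / v ^ 2) := by
    intro a b hab
    have hc : Continuous fun θ : ℝ => 3 * θ ^ 2 / v ^ 2 := by fun_prop
    rw [← ofReal_integral_eq_lintegral_ofReal (hc.integrableOn_Ioc)
      (Filter.Eventually.of_forall fun θ => by positivity), ← intervalIntegral.integral_of_le hab]
    congr 1
    rw [intervalIntegral.integral_eq_sub_of_hasDerivAt (f := fun θ => θ ^ 3 / v ^ 2)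
      (fun θ _ => by
        have := (hasDerivAt_pow 3 θ).div_const (v ^ 2)
        simpa using this) (hc.intervalIntegrable _ _)]
    ring
  rcases lt_or_ge 0 s with hs | hs
  · refine (lintegral_mono_set (t := Set.Ioc 0 1) ?_).trans (le_of_eq ?_)
    · intro θ hθ
      obtain ⟨h2, h3⟩ := hA θ hθ
      refine ⟨?_, (abs_le.1 h2).2⟩
      by_contra h4
      nlinarith
    · rw [h1 0 1 zero_le_one]
      norm_num
  · refine (lintegral_mono_set (t := Set.Icc (-1) 0) ?_).trans (le_of_eq ?_)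
    · intro θ hθ
      obtain ⟨h2, h3⟩ := hA θ hθ
      refine ⟨(abs_le.1 h2).1, ?_⟩
      by_contra h4
      push Not at h4
      nlinarith
    · rw [← setLIntegral_congr (Ioc_ae_eq_Icc (a := (-1 : ℝ)) (b := 0)), h1 (-1) 0 (by norm_num)]
      norm_num

lemma int_v (p : ℝ) (h0 : 0 ≤ p) (h1 : p ≤ 1 / 2) :
    ∫⁻ v in {v : ℝ | 0 < v ∧ 1 / 2 ≤ p ^ 2 + v ^ 2}, ENNReal.ofReal (1 / v ^ 2) ≤
      ENNReal.ofReal (1 / √(1 / 2 - p ^ 2)) := by
  obtain ⟨s, hs⟩ : ∃ s, s = √(1 / 2 - p ^ 2) := ⟨_, rfl⟩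
  have hp : 0 < 1 / 2 - p ^ 2 := by nlinarith
  have hs0 : 0 < s := by rw [hs]; exact Real.sqrt_pos.2 hp
  rw [← hs]
  refine (lintegral_mono_set (t := Set.Ici s) ?_).trans (le_of_eq ?_)
  · rintro v ⟨h2, h3⟩
    rw [Set.mem_Ici, hs]
    apply Real.sqrt_le_iff.2
    constructor
    · exact h2.le
    · linarith
  · rw [← setLIntegral_congr (Ioi_ae_eq_Ici (a := s))]
    have e1 : ∀ v ∈ Set.Ioi s, ENNReal.ofReal (1 / v ^ 2) = ENNReal.ofReal (v ^ (-2 : ℝ)) := by
      intro v hv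
      have hv0 : 0 < v := hs0.trans hv
      congr 1
      rw [Real.rpow_neg hv0.le, show (2 : ℝ) = ((2 : ℕ) : ℝ) by norm_num, Real.rpow_natCast, one_div]
    rw [setLIntegral_congr_fun measurableSet_Ioi e1]
    rw [← ofReal_integral_eq_lintegral_ofReal (integrableOn_Ioi_rpow_of_lt (by norm_num) hs0)]
    · rw [integral_Ioi_rpow_of_lt (by norm_num) hs0]
      congr 1
      norm_num
      rw [Real.rpow_neg hs0.le, Real.rpow_one]
    · filter_upwards [ae_restrict_mem measurableSet_Ioi] with v hv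
      exact (Real.rpow_pos_of_pos (hs0.trans hv) _).le

lemma int_p : ∫⁻ p in Set.Icc (0 : ℝ) (1 / 2), ENNReal.ofReal (1 / √(1 / 2 - p ^ 2)) =
    ENNReal.ofReal (Real.pi / 4) := by
  rw [← setLIntegral_congr (Ioc_ae_eq_Icc (a := (0 : ℝ)) (b := 1 / 2))]
  have hpos : ∀ p ∈ Set.Icc (0 : ℝ) (1 / 2), 0 < 1 / 2 - p ^ 2 := by
    rintro p ⟨h0, h1⟩
    nlinarith
  have hc : ContinuousOn (fun p : ℝ => 1 / √(1 / 2 - p ^ 2)) (Set.Icc 0 (1 / 2)) := by
    apply ContinuousOn.div continuousOn_const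
    · exact (Real.continuous_sqrt.comp (by fun_prop)).continuousOn
    · intro p hp
      exact (Real.sqrt_pos.2 (hpos p hp)).ne'
  rw [← ofReal_integral_eq_lintegral_ofReal
    ((hc.integrableOn_compact isCompact_Icc).mono_set Set.Ioc_subset_Icc_self)
    (Filter.Eventually.of_forall fun p => by positivity),
    ← intervalIntegral.integral_of_le (by norm_num)]
  congr 1
  have h01 : (0 : ℝ) ≤ 1 / 2 := by norm_num
  rw [intervalIntegral.integral_eq_sub_of_hasDerivAt (f := fun p => Real.arcsin (√2 * p))]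
  · rw [mul_zero, Real.arcsin_zero, sub_zero, show √2 * (1 / 2) = √2 / 2 by ring,
      ← Real.sin_pi_div_four, Real.arcsin_sin (by linarith [Real.pi_pos]) (by linarith [Real.pi_pos])]
  · intro p hp
    rw [Set.uIcc_of_le h01] at hp
    have hp1 := hpos p hp
    have h2 : √2 ^ 2 = (2 : ℝ) := Real.sq_sqrt (by norm_num)
    have hlt : (√2 * p) ^ 2 < 1 := by
      rw [mul_pow, h2]
      linarith
    have hab := abs_lt_of_sq_lt_sq (by linarith : (√2 * p) ^ 2 < 1 ^ 2) zero_le_one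
    rw [abs_lt] at hab
    have h3 := (Real.hasDerivAt_arcsin (x := √2 * p) (by linarith) (by linarith)).comp p
      ((hasDerivAt_id p).const_mul (√2))
    have e2 : 1 - (√2 * p) ^ 2 = 2 * (1 / 2 - p ^ 2) := by
      rw [mul_pow, h2]
      ring
    have e3 : 1 / √(1 - (√2 * p) ^ 2) * (√2 * 1) = 1 / √(1 / 2 - p ^ 2) := by
      rw [e2, Real.sqrt_mul (by norm_num)]
      have h4 : (0 : ℝ) < √2 := by positivity
      have h5 := Real.sqrt_pos.2 hp1
      field_simp
    rw [e3] at h3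
    exact h3
  · rw [intervalIntegrable_iff_integrableOn_Ioc_of_le h01]
    exact (hc.integrableOn_compact isCompact_Icc).mono_set Set.Ioc_subset_Icc_self


lemma Bq_x (q : Fin 4 → ℝ) : (Bq q).x = q 3 * (3 + 2 * √3 * Real.cos (q 2)) / (4 * (q 1) ^ 2) := by
  show (3 * q 3 + 2 * √3 * q 3 * Real.cos (q 2)) / (4 * (q 1) ^ 2) = _
  congr 1
  ring

lemma meas_Dm : MeasurableSet Dm := by
  have h0 : Measurable fun q : Fin 4 → ℝ => q 0 := measurable_pi_apply 0
  have h1 : Measurable fun q : Fin 4 → ℝ => q 1 := measurable_pi_apply 1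
  have h2 : Measurable fun q : Fin 4 → ℝ => q 2 := measurable_pi_apply 2
  have h3 : Measurable fun q : Fin 4 → ℝ => q 3 := measurable_pi_apply 3
  have hx : Measurable fun q : Fin 4 → ℝ => (Bq q).x := by
    simp_rw [Bq_x]
    exact (h3.mul ((Real.measurable_cos.comp h2).const_mul _ |>.const_add _)).div
      ((h1.pow_const 2).const_mul _)
  have e : Dm = ((({q | 0 ≤ q 0} ∩ {q | q 0 ≤ 1 / 2}) ∩ ({q | 0 < q 1} ∩ {q | 1 / 2 ≤ q 0 ^ 2 + q 1 ^ 2})) ∩
      ({q | 0 ≤ q 2} ∩ {q | q 2 ≤ 2 * Real.pi})) ∩ ({q | |q 3| ≤ 1} ∩ {q | 0 < (Bq q).x}) := by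
    ext q
    simp only [Dm, FD, Set.mem_ofPred_eq, Set.mem_inter_iff]
    tauto
  rw [e]
  exact (((((measurableSet_le measurable_const h0).inter (measurableSet_le h0 measurable_const)).inter
    ((measurableSet_lt measurable_const h1).inter
      (measurableSet_le measurable_const ((h0.pow_const 2).add (h1.pow_const 2))))).inter
    ((measurableSet_le measurable_const h2).inter (measurableSet_le h2 measurable_const))).inter
    ((measurableSet_le h3.abs measurable_const).inter (measurableSet_lt measurable_const hx)))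

open Classical in
/-- module ITG: the integral of the Jacobian -/
theorem t_ITG : S_ITG := by
  refine ⟨meas_Dm, ?_⟩
  obtain ⟨f, hf⟩ : ∃ f : ℝ → ℝ → ℝ → ℝ → ENNReal, f = fun p v φ θ =>
      if FD p v ∧ 0 ≤ φ ∧ φ ≤ 2 * Real.pi ∧ |θ| ≤ 1 ∧ 0 < θ * (3 + 2 * √3 * Real.cos φ) then
        ENNReal.ofReal (3 * θ ^ 2 / v ^ 2) else 0 := ⟨_, rfl⟩
  have hfe : ∀ p v φ θ, f p v φ θ =
      if FD p v ∧ 0 ≤ φ ∧ φ ≤ 2 * Real.pi ∧ |θ| ≤ 1 ∧ 0 < θ * (3 + 2 * √3 * Real.cos φ) then
        ENNReal.ofReal (3 * θ ^ 2 / v ^ 2) else 0 := fun p v φ θ => by rw [hf]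
  have e1 : (fun q : Fin 4 → ℝ => f (q 0) (q 1) (q 2) (q 3)) =
      Dm.indicator fun q => ENNReal.ofReal (3 * (q 3) ^ 2 / (q 1) ^ 2) := by
    funext q
    rw [hfe, Set.indicator_apply]
    have h1 : q ∈ Dm ↔ (FD (q 0) (q 1) ∧ 0 ≤ q 2 ∧ q 2 ≤ 2 * Real.pi ∧ |q 3| ≤ 1 ∧
        0 < q 3 * (3 + 2 * √3 * Real.cos (q 2))) := by
      unfold Dm
      rw [Set.mem_ofPred_eq, Bq_x]
      constructor
      · rintro ⟨a1, a2, a3, a4, a5⟩
        refine ⟨a1, a2, a3, a4, ?_⟩
        have hv : 0 < 4 * (q 1) ^ 2 := by have := a1.2.2.1; positivity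
        exact (div_pos_iff_of_pos_right hv).1 a5
      · rintro ⟨a1, a2, a3, a4, a5⟩
        refine ⟨a1, a2, a3, a4, ?_⟩
        have hv : 0 < 4 * (q 1) ^ 2 := by have := a1.2.2.1; positivity
        exact div_pos a5 hv
    by_cases h : q ∈ Dm
    · rw [if_pos h, if_pos (h1.1 h)]
    · rw [if_neg h, if_neg (fun h' => h (h1.2 h'))]
  have hmeas : Measurable fun q : Fin 4 → ℝ => f (q 0) (q 1) (q 2) (q 3) := by
    rw [e1]
    refine Measurable.indicator ?_ meas_Dm
    exact ENNReal.measurable_ofReal.comp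
      ((((measurable_pi_apply 3).pow_const 2).const_mul _).div ((measurable_pi_apply 1).pow_const 2))
  rw [← lintegral_indicator meas_Dm, ← e1, fub4 f hmeas]
  -- the innermost integral
  have s1 : ∀ p v φ, ∫⁻ θ, f p v φ θ ≤ (Set.Icc 0 (2 * Real.pi)).indicator (fun _ =>
      if FD p v then ENNReal.ofReal (1 / v ^ 2) else 0) φ := by
    intro p v φ
    by_cases hφ : φ ∈ Set.Icc 0 (2 * Real.pi)
    · rw [Set.indicator_of_mem hφ]
      by_cases hF : FD p v
      · rw [if_pos hF]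
        obtain ⟨A, hA⟩ : ∃ A : Set ℝ, A = {θ | |θ| ≤ 1 ∧ 0 < θ * (3 + 2 * √3 * Real.cos φ)} := ⟨_, rfl⟩
        have hAm : MeasurableSet A := by
          rw [hA]
          exact (measurableSet_le measurable_id.abs measurable_const).inter
            (measurableSet_lt measurable_const (measurable_id.mul_const _))
        refine le_trans (le_of_eq ?_) (int_theta v (3 + 2 * √3 * Real.cos φ) hF.2.2.1 A
          (fun θ hθ => by rw [hA] at hθ; exact hθ))
        rw [← lintegral_indicator hAm]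
        refine lintegral_congr fun θ => ?_
        rw [hfe, Set.indicator_apply, hA]
        by_cases h : |θ| ≤ 1 ∧ 0 < θ * (3 + 2 * √3 * Real.cos φ)
        · have h' : θ ∈ {θ : ℝ | |θ| ≤ 1 ∧ 0 < θ * (3 + 2 * √3 * Real.cos φ)} := h
          rw [if_pos h', if_pos ⟨hF, hφ.1, hφ.2, h.1, h.2⟩]
        · have h' : ¬ θ ∈ {θ : ℝ | |θ| ≤ 1 ∧ 0 < θ * (3 + 2 * √3 * Real.cos φ)} := h
          rw [if_neg h', if_neg (fun h2 => h h2.2.2.2)]
      · rw [if_neg hF]
        refine le_of_eq ?_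
        rw [lintegral_eq_zero_of_ae_eq_zero]
        refine Filter.Eventually.of_forall fun θ => ?_
        show f p v φ θ = 0
        rw [hfe]
        exact if_neg (fun h2 => hF h2.1)
    · rw [Set.indicator_of_notMem hφ]
      refine le_of_eq ?_
      rw [lintegral_eq_zero_of_ae_eq_zero]
      refine Filter.Eventually.of_forall fun θ => ?_
      show f p v φ θ = 0
      rw [hfe]
      exact if_neg (fun h2 => hφ ⟨h2.2.1, h2.2.2.1⟩)
  have s2 : ∀ p v, ∫⁻ φ, ∫⁻ θ, f p v φ θ ≤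
      (if FD p v then ENNReal.ofReal (1 / v ^ 2) else 0) * ENNReal.ofReal (2 * Real.pi) := by
    intro p v
    refine (lintegral_mono fun φ => s1 p v φ).trans (le_of_eq ?_)
    rw [lintegral_indicator measurableSet_Icc, setLIntegral_const, Real.volume_Icc, sub_zero]
  have s3 : ∀ p, ∫⁻ v, ∫⁻ φ, ∫⁻ θ, f p v φ θ ≤ (Set.Icc (0 : ℝ) (1 / 2)).indicator (fun p =>
      ENNReal.ofReal (1 / √(1 / 2 - p ^ 2)) * ENNReal.ofReal (2 * Real.pi)) p := by
    intro p
    refine (lintegral_mono fun v => s2 p v).trans ?_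
    rw [lintegral_mul_const' _ _ ENNReal.ofReal_ne_top]
    by_cases hp : p ∈ Set.Icc (0 : ℝ) (1 / 2)
    · rw [Set.indicator_of_mem hp]
      refine mul_le_mul' ?_ le_rfl
      have hAm : MeasurableSet {v : ℝ | 0 < v ∧ 1 / 2 ≤ p ^ 2 + v ^ 2} :=
        (measurableSet_lt measurable_const measurable_id).inter
          (measurableSet_le measurable_const ((measurable_id.pow_const 2).const_add _))
      refine le_trans (le_of_eq ?_) (int_v p hp.1 hp.2)
      rw [← lintegral_indicator hAm]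
      refine lintegral_congr fun v => ?_
      rw [Set.indicator_apply]
      by_cases h : 0 < v ∧ 1 / 2 ≤ p ^ 2 + v ^ 2
      · have h' : v ∈ {v : ℝ | 0 < v ∧ 1 / 2 ≤ p ^ 2 + v ^ 2} := h
        rw [if_pos h', if_pos ⟨hp.1, hp.2, h.1, h.2⟩]
      · have h' : ¬ v ∈ {v : ℝ | 0 < v ∧ 1 / 2 ≤ p ^ 2 + v ^ 2} := h
        rw [if_neg h', if_neg (fun h2 : FD p v => h h2.2.2)]
    · rw [Set.indicator_of_notMem hp]
      have : ∫⁻ v : ℝ, (if FD p v then ENNReal.ofReal (1 / v ^ 2) else 0) = 0 := by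
        rw [lintegral_eq_zero_of_ae_eq_zero]
        refine Filter.Eventually.of_forall fun v => ?_
        exact if_neg (fun h2 : FD p v => hp ⟨h2.1, h2.2.1⟩)
      rw [this, zero_mul]
  refine (lintegral_mono fun p => s3 p).trans (le_of_eq ?_)
  rw [lintegral_indicator measurableSet_Icc, lintegral_mul_const' _ _ ENNReal.ofReal_ne_top, int_p,
    ← ENNReal.ofReal_mul (by positivity)]
  congr 1
  ring

end Pool.Agent.L0h10.AV
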