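import Pool.Agent.L0h45.AV.Stm2
import Pool.Agent.N75.PM.Loc1

/-!
# Project AV, module LO3: the local condition where the discriminant is a unit
-/

set_option autoImplicit false
set_option linter.all false

open Polynomial IsDedekindDomain WithZero
open Pool.Agent.N874.PP Pool.Agent.N874.PM Pool.Agent.N704.PP Pool.Agent.N75.PM
open Pool.Agent.L0h45.AV (S_LO3)
open scoped Classical

namespace Pool.Agent.L0h10.AV

/-- module LO3: the local condition and even valuations where the discriminant is a unit -/
theorem t_LO3 : S_LO3 := by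
  intro M Ω R O _ _ _ _ _ _ _ _ _ _ _ w 𝔓 hlies a b Θ h hΘ hAv hBv hd hl hne
  obtain ⟨j, hj1, hj2, hj3⟩ := cmap hlies
  set α : Ω := aeval Θ h with hα
  have hθ1 : 𝔓.valuation Ω Θ ≤ 1 := root_le _ (hlies.le _ hAv) (hlies.le _ hBv) hΘ
  rcases loc_cases j hj1 hΘ hl with ⟨g, hg⟩ | ⟨x, y, hy, hxy, g, hg⟩
  · exact ev_of 𝔓 α g (by rw [← hα] at hg; rw [hg, map_pow])
  · rw [← hα] at hg
    set A := algebraMap M (w.adicCompletion M) a with hA
    set B := algebraMap M (w.adicCompletion M) b with hB
    set T := algebraMap Ω (𝔓.adicCompletion Ω) Θ with hT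
    have hAv' : Valued.v A ≤ 1 := by rw [hA, vx]; exact hAv
    have hBv' : Valued.v B ≤ 1 := by rw [hB, vx]; exact hBv
    have hTv : Valued.v T ≤ 1 := by rw [hT, vx]; exact hθ1
    have hTroot : T ^ 3 + j A * T + j B = 0 := by
      rw [hA, hB, hj1, hj1, hT, ← map_pow, ← map_mul, ← map_add, ← map_add, hΘ, map_zero]
    -- it suffices to find `s`
    have fin : ∀ s : 𝔓.adicCompletion Ω, s ≠ 0 → Valued.v (j x - T) = Valued.v s ^ 2 →
        Ev 𝔓 α := by
      intro s hs hsv
      have hs0 : Valued.v s ≠ 0 := (Valuation.ne_zero_iff _).2 hs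
      refine ev_of 𝔓 α (g / s) ?_
      have h6 := congrArg (Valued.v : 𝔓.adicCompletion Ω → WithZero (Multiplicative ℤ)) hg
      rw [map_mul, hsv, map_pow] at h6
      rw [map_div₀, div_pow, ← h6, mul_div_assoc, mul_comm, div_mul_cancel₀]
      exact pow_ne_zero 2 hs0
    by_cases hx : Valued.v x ≤ 1
    · have hu1 : Valued.v (j x - T) ≤ 1 :=
        (Valuation.map_sub _ _ _).trans (max_le (hj2 x hx) hTv)
      rcases hu1.eq_or_lt with hu | hu
      · exact fin 1 one_ne_zero (by rw [hu, map_one, one_pow])
      set u := j x - T with hud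
      have hf : j (y ^ 2) = u * (u ^ 2 + 3 * T * u + (3 * T ^ 2 + j A)) := by
        rw [hxy, map_add, map_add, map_mul, map_pow]
        have e1 : j x = T + u := by rw [hud]; ring
        rw [e1]
        linear_combination hTroot
      have n3 : Valued.v (3 : 𝔓.adicCompletion Ω) ≤ 1 := by
        exact_mod_cast vnat (Valued.v : Valuation (𝔓.adicCompletion Ω) _) 3
      have n6 : Valued.v (6 : 𝔓.adicCompletion Ω) ≤ 1 := by
        exact_mod_cast vnat (Valued.v : Valuation (𝔓.adicCompletion Ω) _) 6
      have hs : Valued.v (u ^ 2 + 3 * T * u) < 1 := by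
        refine lt_of_le_of_lt (Valuation.map_add _ _ _) (max_lt ?_ ?_)
        · rw [map_pow, pow_two]
          exact mul_lt_one_of_lt_of_le hu hu.le
        · rw [map_mul, map_mul, mul_comm]
          exact mul_lt_one_of_lt_of_le hu (mul_le_one' n3 hTv)
      have hdv : Valued.v (3 * T ^ 2 + j A) ≤ 1 := by
        refine (Valuation.map_add _ _ _).trans (max_le ?_ (hj2 A hAv'))
        rw [map_mul, map_pow]
        exact mul_le_one' n3 (pow_le_one' hTv 2)
      have hjy : j y ≠ 0 := by
        rw [Ne, map_eq_zero]
        exact hy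
      rcases hdv.eq_or_lt with hd1 | hd1
      · refine fin (j y) hjy ?_
        have h5 : Valued.v (u ^ 2 + 3 * T * u + (3 * T ^ 2 + j A)) = 1 := by
          rw [Valuation.map_add_eq_of_lt_right _ (by rw [hd1]; exact hs), hd1]
        have h6 := congrArg (Valued.v : 𝔓.adicCompletion Ω → WithZero (Multiplicative ℤ)) hf
        rw [map_mul, h5, mul_one, map_pow, map_pow] at h6
        exact h6.symm
      · exfalso
        have hf1 : Valued.v (y ^ 2) < 1 := by
          refine j_lt j hj2 hj3 ?_
          rw [hf, map_mul]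
          refine mul_lt_one_of_lt_of_le hu ?_
          exact (Valuation.map_add _ _ _).trans (max_le hs.le hdv)
        have hf2 : Valued.v (3 * x ^ 2 + A) < 1 := by
          refine j_lt j hj2 hj3 ?_
          have e1 : j (3 * x ^ 2 + A) = (3 * T ^ 2 + j A) + u * (6 * T + 3 * u) := by
            rw [map_add, map_mul, map_pow, map_ofNat]
            have e2 : j x = T + u := by rw [hud]; ring
            rw [e2]
            ring
          rw [e1]
          refine lt_of_le_of_lt (Valuation.map_add _ _ _) (max_lt hd1 ?_)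
          rw [map_mul]
          refine mul_lt_one_of_lt_of_le hu ?_
          refine (Valuation.map_add _ _ _).trans (max_le ?_ ?_)
          · rw [map_mul]
            exact mul_le_one' n6 hTv
          · rw [map_mul]
            exact mul_le_one' n3 hu.le
        have hdd : exp (-1 : ℤ) ≤ Valued.v (4 * A ^ 3 + 27 * B ^ 2) := by
          have e1 : 4 * A ^ 3 + 27 * B ^ 2 = algebraMap M (w.adicCompletion M)
              (4 * a ^ 3 + 27 * b ^ 2) := by
            rw [hA, hB]
            simp only [map_mul, map_add, map_pow, map_ofNat]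
          rw [e1, vx, hd, ← exp_zero, exp_le_exp]
          norm_num
        have h7 := disc_val (Valued.v : Valuation (w.adicCompletion M) _) hx hf1 hf2 hxy rfl hdd
        rw [map_pow] at h7
        exact sq_ne (Valued.v : Valuation (w.adicCompletion M) _) y h7
    · rw [not_le] at hx
      have hv3 := bigV (Valued.v : Valuation (w.adicCompletion M) _) hAv' hBv' hxy hx
      have hx0 : x ≠ 0 := by
        rintro rfl
        rw [map_zero] at hx
        exact absurd hx (by simp)
      have hvx0 : Valued.v x ≠ 0 := (Valuation.ne_zero_iff _).2 hx0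
      have h3 : Valued.v (j (x ^ 3 / y ^ 2)) = 1 := j_unit j hj2 (by
        rw [map_div₀, map_pow, map_pow, hv3, div_self (pow_ne_zero 3 hvx0)])
      have hjx := j_big j hj3 hx
      have h5 : Valued.v (j x - T) = Valued.v (j x) :=
        Valuation.map_sub_eq_of_lt_left _ (lt_of_le_of_lt hTv hjx)
      have hjy0 : j y ≠ 0 := by rw [Ne, map_eq_zero]; exact hy
      have hjx0 : j x ≠ 0 := by rw [Ne, map_eq_zero]; exact hx0
      refine fin (j y / j x) (div_ne_zero hjy0 hjx0) ?_
      have e7 : j x = (j y / j x) ^ 2 * j (x ^ 3 / y ^ 2) := by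
        rw [map_div₀, map_pow, map_pow]
        field_simp
      have h7 := congrArg (Valued.v : 𝔓.adicCompletion Ω → WithZero (Multiplicative ℤ)) e7
      rw [map_mul, h3, mul_one, map_pow] at h7
      rw [h5]
      exact h7

end Pool.Agent.L0h10.AV
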